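import Pool.Agent.H211.AD.Stm

/-!
# Project AD (helper211), R1: recursion at the critical points
-/

set_option autoImplicit false

open Metric Set MeasureTheory Filter Topology

namespace Pool.Agent.H71.AD211

open Pool.Agent.H211.AD

section

variable {f : ℂ → ℂ} {U K : Set ℂ} {Cr : Finset ℂ} {ℓ : ℂ → ℕ} {δ₀ Cp rp c₀ μ : ℝ}

lemma K_sub (S : Sys f U K Cr ℓ δ₀ Cp rp c₀ μ) : K ⊆ U :=
  (self_subset_cthickening K).trans S.thick

lemma iter_K (S : Sys f U K Cr ℓ δ₀ Cp rp c₀ μ) {z : ℂ} (hz : z ∈ K) (n : ℕ) : f^[n] z ∈ K := by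
  induction n with
  | zero => exact hz
  | succ n ih =>
    rw [Function.iterate_succ_apply']
    exact S.fwd _ ih

lemma diff_f (S : Sys f U K Cr ℓ δ₀ Cp rp c₀ μ) {z : ℂ} (hz : z ∈ K) : DifferentiableAt ℂ f z :=
  S.diff.differentiableAt (S.openU.mem_nhds (K_sub S hz))

lemma diff_iter (S : Sys f U K Cr ℓ δ₀ Cp rp c₀ μ) {z : ℂ} (hz : z ∈ K) (n : ℕ) :
    DifferentiableAt ℂ f^[n] z := by
  induction n with
  | zero => exact differentiableAt_id
  | succ n ih =>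
    rw [Function.iterate_succ']
    exact (diff_f S (iter_K S hz n)).comp z ih

lemma deriv_succ (S : Sys f U K Cr ℓ δ₀ Cp rp c₀ μ) {z : ℂ} (hz : z ∈ K) (n : ℕ) :
    deriv f^[n + 1] z = deriv f (f^[n] z) * deriv f^[n] z := by
  rw [Function.iterate_succ']
  exact deriv_comp z (diff_f S (iter_K S hz n)) (diff_iter S hz n)

/-- the critical values do not come back to the critical points -/
lemma iter_ne (S : Sys f U K Cr ℓ δ₀ Cp rp c₀ μ) {c c' : ℂ} (hc : c ∈ Cr) (hc' : c' ∈ Cr)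
    (j : ℕ) : f^[j] (f c') ≠ c := by
  intro h
  have h1 := S.ce c' hc' (j + 1)
  rw [deriv_succ S (S.fwd _ (S.critK c' hc')), h] at h1
  have h2 := (S.loc c hc c (by rw [sub_self, norm_zero]; exact S.rp_pos.le)).2.2.2.1
  have h3 : ℓ c - 1 ≠ 0 := by have := S.deg c hc; omega
  rw [sub_self, norm_zero, zero_pow h3, mul_zero] at h2
  have h4 : ‖deriv f c‖ = 0 := le_antisymm h2 (norm_nonneg _)
  rw [norm_mul, h4, zero_mul] at h1
  have h5 : 0 < c₀ * μ ^ (j + 1) := mul_pos S.c₀_pos (pow_pos (by linarith [S.μ_gt]) _)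
  linarith

/-- the choice of the radius -/
lemma exists_R2 (S : Sys f U K Cr ℓ δ₀ Cp rp c₀ μ) (M : ℕ) {a : ℝ} (ha : 0 < a) :
    ∃ R₂ > 0, 17 * R₂ ≤ a ∧ ∀ j < M, ∀ c ∈ Cr, ∀ c' ∈ Cr, 17 * R₂ ≤ ‖f^[j] (f c') - c‖ := by
  have key : ∀ b : ℝ, 0 < b → ∀ᶠ R in 𝓝[>] (0 : ℝ), 17 * R ≤ b := by
    intro b hb
    have h1 : Tendsto (fun R : ℝ => 17 * R) (𝓝[>] (0 : ℝ)) (𝓝 0) := by
      have h2 : Tendsto (fun R : ℝ => 17 * R) (𝓝 0) (𝓝 (17 * 0)) := tendsto_id.const_mul 17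
      rw [mul_zero] at h2
      exact h2.mono_left nhdsWithin_le_nhds
    exact (h1.eventually (gt_mem_nhds hb)).mono fun _ h => le_of_lt h
  have h2 : ∀ᶠ R in 𝓝[>] (0 : ℝ), ∀ j ∈ Finset.range M, ∀ c ∈ Cr, ∀ c' ∈ Cr,
      17 * R ≤ ‖f^[j] (f c') - c‖ := by
    rw [eventually_all_finset]
    intro j _
    rw [eventually_all_finset]
    intro c hc
    rw [eventually_all_finset]
    intro c' hc'
    exact key _ (norm_pos_iff.2 (sub_ne_zero.2 (iter_ne S hc hc' j)))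
  obtain ⟨R, ⟨h3, h4⟩, h5⟩ := ((key a ha).and h2).and self_mem_nhdsWithin |>.exists
  exact ⟨R, h5, h3, fun j hj => h4 j (Finset.mem_range.2 hj)⟩

/-- the estimate at a hit -/
lemma hit_est (S : Sys f U K Cr ℓ δ₀ Cp rp c₀ μ) {κ CH : ℝ} (hκ : 0 < κ) (hCH : 0 < CH) {L : ℕ}
    (hL : ∀ c ∈ Cr, ℓ c ≤ L) {n j : ℕ} (hj : j < n) {c c' p : ℂ} (hc : c ∈ Cr) (hc' : c' ∈ Cr)
    {β : ℝ} (hβ : 0 < β) (hu : ‖f^[j] (f c') - c‖ ≤ 17 * β) (hβr : 17 * β ≤ rp)
    (hp1 : ‖f^[n - (j + 1)] p - c'‖ ≤ rp)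
    (hp2 : ‖f^[n - j] p - f c'‖ ≤ CH * (κ * μ) ^ j * (8 * β) / ‖deriv f^[j] (f c')‖) :
    ‖f^[n - (j + 1)] p - c'‖ ^ ℓ c' ≤
      Cp * (8 * CH * Cp * 17 ^ L / c₀) * (κ ^ j * β ^ ℓ c) := by
  have hμ : 1 < μ := S.μ_gt
  have hc₀ := S.c₀_pos
  have hCp : 0 < Cp := lt_of_lt_of_le one_pos S.Cp_ge
  set D : ℝ := ‖deriv f^[j] (f c')‖ with hD
  have hD0 : 0 < D := lt_of_lt_of_le (mul_pos hc₀ (pow_pos (by linarith) _)) (S.ce c' hc' j)
  -- the derivative at the hit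
  have h1 := S.ce c' hc' (j + 1)
  rw [deriv_succ S (S.fwd _ (S.critK c' hc')), norm_mul] at h1
  have h2 := (S.loc c hc (f^[j] (f c')) (hu.trans hβr)).2.2.2.1
  have h3 : ‖f^[j] (f c') - c‖ ^ (ℓ c - 1) ≤ (17 * β) ^ (ℓ c - 1) :=
    pow_le_pow_left₀ (norm_nonneg _) hu _
  have h4 : (17 * β) ^ (ℓ c - 1) ≤ 17 ^ L * β ^ (ℓ c - 1) := by
    rw [mul_pow]
    refine mul_le_mul_of_nonneg_right ?_ (by positivity)
    exact pow_le_pow_right₀ (by norm_num) (by have := hL c hc; omega)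
  have h5 : c₀ * μ ^ j ≤ Cp * (17 ^ L * β ^ (ℓ c - 1)) * D := by
    have e1 : c₀ * μ ^ j ≤ c₀ * μ ^ (j + 1) := by
      refine mul_le_mul_of_nonneg_left ?_ hc₀.le
      exact pow_le_pow_right₀ hμ.le (Nat.le_succ j)
    refine e1.trans (h1.trans ?_)
    refine mul_le_mul_of_nonneg_right ?_ hD0.le
    exact h2.trans (mul_le_mul_of_nonneg_left (h3.trans h4) hCp.le)
  have h6 : CH * (κ * μ) ^ j * (8 * β) / D ≤
      (8 * CH * Cp * 17 ^ L / c₀) * (κ ^ j * β ^ ℓ c) := by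
    rw [div_le_iff₀ hD0]
    have e2 : β ^ ℓ c = β ^ (ℓ c - 1) * β := by
      rw [← pow_succ, Nat.sub_add_cancel (by have := S.deg c hc; omega)]
    have e3 : CH * (κ * μ) ^ j * (8 * β) = (8 * CH * κ ^ j * β / c₀) * (c₀ * μ ^ j) := by
      rw [mul_pow]
      field_simp
    have e4 : (8 * CH * Cp * 17 ^ L / c₀) * (κ ^ j * β ^ ℓ c) * D =
        (8 * CH * κ ^ j * β / c₀) * (Cp * (17 ^ L * β ^ (ℓ c - 1)) * D) := by
      rw [e2]
      field_simp
    rw [e3, e4]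
    exact mul_le_mul_of_nonneg_left h5 (by positivity)
  have h7 := (S.loc c' hc' (f^[n - (j + 1)] p) hp1).2.2.1
  have h8 : f (f^[n - (j + 1)] p) = f^[n - j] p := by
    rw [← Function.iterate_succ_apply' f]
    congr 2
    omega
  rw [h8] at h7
  calc ‖f^[n - (j + 1)] p - c'‖ ^ ℓ c' ≤ Cp * ‖f^[n - j] p - f c'‖ := h7
    _ ≤ Cp * ((8 * CH * Cp * 17 ^ L / c₀) * (κ ^ j * β ^ ℓ c)) :=
        mul_le_mul_of_nonneg_left (hp2.trans h6) hCp.le
    _ = _ := by ring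

lemma lt_root {x Z : ℝ} {l : ℕ} (hx : 0 ≤ x) (hl : l ≠ 0) (h : x ^ l < Z) :
    x < Z ^ (1 / (l : ℝ)) := by
  have h1 : (x ^ l) ^ (1 / (l : ℝ)) = x := by
    rw [one_div]
    exact Real.pow_rpow_inv_natCast hx hl
  rw [← h1]
  exact Real.rpow_lt_rpow (by positivity) h (by positivity)

/-- `S_MEAS` with real numbers -/
lemma meas_real {CM : ℝ} (hCM : 0 < CM) (hM : ∀ (f : ℂ → ℂ) (U : Set ℂ), IsOpen U →
    DifferentiableOn ℂ f U →
    ∀ (n : ℕ) (y : ℂ) (ρ : ℝ), 0 < ρ → ∀ X Y Z : Set ℂ, Z ⊆ closedBall y (ρ / 4) →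
      (∀ z ∈ X, ∃ g, IsBr f U n y ρ g ∧ z ∈ g '' Z ∧ g '' ball y ρ ⊆ Y) →
      volume X ≤ ENNReal.ofReal (CM / ρ ^ 2) * volume Z * volume Y)
    (hU : IsOpen U) (hd : DifferentiableOn ℂ f U) {n : ℕ} {c : ℂ} {ρ r : ℝ} (hρ : 0 < ρ)
    (hr : 4 * ρ ≤ r) {X Y : Set ℂ} (hY : volume Y ≠ ⊤)
    (h : ∀ z ∈ X, ∃ g, IsBr f U n c r g ∧ z ∈ g '' ball c ρ ∧ g '' ball c r ⊆ Y) :
    (volume X).toReal ≤ CM / r ^ 2 * (Real.pi * ρ ^ 2) * (volume Y).toReal := by
  have hr0 : 0 < r := by linarith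
  have h1 := hM f U hU hd n c r hr0 X Y (ball c ρ)
    ((ball_subset_ball (by linarith)).trans ball_subset_closedBall) h
  have hb : volume (ball c ρ) ≠ ⊤ := measure_ball_lt_top.ne
  have h2 := ENNReal.toReal_mono (ENNReal.mul_ne_top (ENNReal.mul_ne_top ENNReal.ofReal_ne_top hb)
    hY) h1
  rw [ENNReal.toReal_mul, ENNReal.toReal_mul, ENNReal.toReal_ofReal (by positivity),
    Complex.volume_ball, ENNReal.toReal_mul, ENNReal.toReal_pow,
    ENNReal.toReal_ofReal hρ.le] at h2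
  have h3 : ((NNReal.pi : NNReal) : ENNReal).toReal = Real.pi := rfl
  rw [h3, mul_comm (ρ ^ 2)] at h2
  exact h2

end

theorem t_R1 (hHIT : S_HIT) (hMEAS : S_MEAS) : S_R1 := by
  obtain ⟨CM, hCM, hM⟩ := hMEAS
  intro f U K Cr ℓ δ₀ Cp rp c₀ μ S κ hκμ hκ1
  have hμ : 1 < μ := S.μ_gt
  have hκ0 : 0 < κ := by
    by_contra h
    have : κ * μ ≤ 0 := mul_nonpos_of_nonpos_of_nonneg (not_lt.1 h) (by linarith)
    linarith
  have hc₀ := S.c₀_pos
  have hCp : 0 < Cp := lt_of_lt_of_le one_pos S.Cp_ge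
  obtain ⟨CH, hCH, hH⟩ := hHIT f U K Cr ℓ δ₀ Cp rp c₀ μ S (κ * μ) hκμ (by nlinarith)
  obtain ⟨δ', hδ', hback⟩ := S.back 1 one_pos
  refine ⟨min δ' δ₀, lt_min hδ' S.δ₀_pos, fun δ hδ hδ1 => ?_⟩
  have hfin : ∀ m, volume (E f U K δ m) ≠ ⊤ := by
    intro m
    have h1 : E f U K δ m ⊆ cthickening 1 K := by
      refine Subset.trans ?_ (hback m)
      rintro z ⟨hz1, hz2⟩
      exact ⟨hz1, cthickening_mono (hδ1.trans (min_le_left _ _)) K hz2⟩
    exact ((measure_mono h1).trans_lt S.cpt.cthickening.measure_lt_top).ne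
  obtain ⟨L, hL⟩ : ∃ L : ℕ, ∀ c ∈ Cr, ℓ c ≤ L := ⟨Cr.sup ℓ, fun c hc => Finset.le_sup hc⟩
  set C' : ℝ := 8 * CH * Cp * 17 ^ L / c₀ with hC'
  have hC'0 : 0 < C' := by positivity
  have hpi := Real.pi_pos
  refine ⟨1 + CM * Real.pi / 4 + Cp * C', by
    have : 0 < CM * Real.pi / 4 := by positivity
    have : 0 < Cp * C' := by positivity
    linarith, fun C hC M => ?_⟩
  have hC1 : 1 ≤ C := by
    have : 0 < CM * Real.pi / 4 := by positivity
    have : 0 < Cp * C' := by positivity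
    linarith
  have hCM' : CM * Real.pi / 4 ≤ C := by
    have : 0 < Cp * C' := by positivity
    linarith
  have hCp' : Cp * C' < C := by
    have : 0 < CM * Real.pi / 4 := by positivity
    linarith
  obtain ⟨R₁, hR₁, hH'⟩ := hH (min δ rp) (lt_min hδ S.rp_pos)
  obtain ⟨R₂, hR₂, h17, hM2⟩ := exists_R2 S M (a := min rp (min δ R₁))
    (lt_min S.rp_pos (lt_min hδ hR₁))
  have h17r : 17 * R₂ ≤ rp := h17.trans (min_le_left _ _)
  have h17δ : 17 * R₂ ≤ δ := h17.trans ((min_le_right _ _).trans (min_le_left _ _))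
  have h17R : 17 * R₂ ≤ R₁ := h17.trans ((min_le_right _ _).trans (min_le_right _ _))
  refine ⟨R₂, hR₂, fun n c hc ρ hρ hρR => ?_⟩
  -- the number of the scales
  have hex : ∃ k : ℕ, R₂ < 2 ^ k * ρ := by
    obtain ⟨k, hk⟩ := pow_unbounded_of_one_lt (R₂ / ρ) (one_lt_two)
    exact ⟨k, (div_lt_iff₀ hρ).1 hk⟩
  obtain ⟨N, hN0, hNlt, hNR⟩ : ∃ N : ℕ, 0 < N ∧ (∀ k < N, 2 ^ k * ρ ≤ R₂) ∧ R₂ < 2 ^ N * ρ := by
    classical
    refine ⟨Nat.find hex, ?_, fun k hk => not_lt.1 (Nat.find_min hex hk), Nat.find_spec hex⟩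
    rw [Nat.pos_iff_ne_zero]
    intro h0
    have := Nat.find_spec hex
    rw [h0, pow_zero, one_mul] at this
    linarith
  refine ⟨N, ?_⟩
  have hcK := S.critK c hc
  -- the sets
  let A : Set ℂ := {z | z ∈ E f U K δ n ∧ ‖f^[n] z - c‖ < ρ}
  let PH : ℕ → ℕ → ℂ → Set ℂ := fun k j c' => {z | z ∈ E f U K δ (n - (j + 1)) ∧
    ‖f^[n - (j + 1)] z - c'‖ < (C * κ ^ j * (2 ^ k * ρ) ^ ℓ c) ^ (1 / (ℓ c' : ℝ))}
  let FB : ℕ → ℂ → Prop := fun k z => ∃ g, IsBr f U n c (4 * (2 ^ k * ρ)) g ∧ g (f^[n] z) = z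
  let X : ℕ → ℕ → ℂ → Set ℂ := fun k j c' => {z | z ∈ A ∧ z ∈ PH k j c' ∧ (k = 0 ∨
    ∃ k', k = k' + 1 ∧ ∃ g, IsBr f U n c (4 * (2 ^ k' * ρ)) g ∧ z ∈ g '' ball c ρ ∧
      g '' ball c (4 * (2 ^ k' * ρ)) ⊆ PH k j c')}
  let Ainf : Set ℂ := {z | z ∈ A ∧ FB (N - 1) z}
  have hAfin : volume A ≠ ⊤ := ((measure_mono fun z hz => hz.1).trans_lt (hfin n).lt_top).ne
  have hPHfin : ∀ k j c', volume (PH k j c') ≠ ⊤ := fun k j c' =>
    ((measure_mono fun z hz => hz.1).trans_lt (hfin (n - (j + 1))).lt_top).ne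
  -- the points of a hit
  have hPHmem : ∀ (k j : ℕ) (c' p : ℂ), k < N → j < n → c' ∈ Cr →
      ‖f^[j] (f c') - c‖ ≤ 17 * (2 ^ k * ρ) → (∀ i < n, f^[i] p ∈ U) →
      ‖f^[n - (j + 1)] p - c'‖ < min δ rp →
      ‖f^[n - j] p - f c'‖ ≤ CH * (κ * μ) ^ j * (8 * (2 ^ k * ρ)) / ‖deriv f^[j] (f c')‖ →
      p ∈ PH k j c' := by
    intro k j c' p hk hj hc' hu hp hp1 hp2
    have hβ : 0 < 2 ^ k * ρ := by positivity
    have hβR := hNlt k hk
    have h1 := hit_est S hκ0 hCH hL hj hc hc' hβ hu (by linarith)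
      (hp1.le.trans (min_le_right _ _)) hp2
    refine ⟨⟨fun i hi => hp i (by omega), ?_⟩, ?_⟩
    · refine mem_cthickening_of_dist_le _ c' δ K (S.critK c' hc') ?_
      rw [dist_eq_norm]
      exact hp1.le.trans (min_le_left _ _)
    · refine lt_root (norm_nonneg _) (by have := S.deg c' hc'; omega) ?_
      refine lt_of_le_of_lt h1 ?_
      rw [mul_assoc C]
      exact mul_lt_mul_of_pos_right hCp' (by positivity)
  -- the covering
  have hcov : A ⊆ Ainf ∪ ⋃ k ∈ Finset.range N, ⋃ j ∈ Finset.Ico M n, ⋃ c' ∈ Cr, X k j c' := by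
    classical
    intro z hz
    by_cases hfb : FB (N - 1) z
    · exact Or.inl ⟨hz, hfb⟩
    right
    have hex2 : ∃ k, ¬ FB k z := ⟨_, hfb⟩
    obtain ⟨k, hkN, hk1, hk2⟩ : ∃ k, k < N ∧ ¬ FB k z ∧ ∀ i < k, FB i z := by
      refine ⟨Nat.find hex2, ?_, Nat.find_spec hex2, fun i hi => not_not.1 (Nat.find_min hex2 hi)⟩
      have := Nat.find_min' hex2 hfb
      omega
    have hβ : 0 < 2 ^ k * ρ := by positivity
    have hβR := hNlt k hkN
    have hρβ : ρ ≤ 2 ^ k * ρ := by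
      have : (1 : ℝ) ≤ 2 ^ k := one_le_pow₀ (by norm_num)
      nlinarith
    have hzA := hz.2
    have hwK : f^[n] z ∈ cthickening R₁ K := by
      refine mem_cthickening_of_dist_le _ c R₁ K hcK ?_
      rw [dist_eq_norm]
      linarith
    -- the hit
    rcases hH' n z (8 * (2 ^ k * ρ)) (by positivity) (by linarith) hz.1.1 hwK with
      ⟨g, hg1, hg2⟩ | ⟨j, hj, c', hc', hu, ⟨hp1, hp2⟩, hall⟩
    · exfalso
      apply hk1
      refine ⟨g, ⟨hg1.1.mono ?_, fun x hx => hg1.2 x ?_⟩, hg2⟩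
      · refine ball_subset_ball' ?_
        rw [dist_eq_norm, norm_sub_rev]
        linarith
      · refine ball_subset_ball' ?_ hx
        rw [dist_eq_norm, norm_sub_rev]
        linarith
    have hu' : ‖f^[j] (f c') - c‖ < 17 * (2 ^ k * ρ) := by
      have e : f^[j] (f c') - c = (f^[j] (f c') - f^[n] z) + (f^[n] z - c) := by ring
      rw [e]
      refine (norm_add_le _ _).trans_lt ?_
      linarith
    have hjM : M ≤ j := by
      by_contra h
      have := hM2 j (not_le.1 h) c hc c' hc'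
      linarith
    have hzPH : z ∈ PH k j c' := hPHmem k j c' z hkN hj hc' hu'.le hz.1.1 hp1 hp2
    refine mem_iUnion₂.2 ⟨k, Finset.mem_range.2 hkN, mem_iUnion₂.2 ⟨j, Finset.mem_Ico.2 ⟨hjM, hj⟩,
      mem_iUnion₂.2 ⟨c', hc', hz, hzPH, ?_⟩⟩⟩
    rcases k with _ | k'
    · exact Or.inl rfl
    · right
      refine ⟨k', rfl, ?_⟩
      obtain ⟨g, hg1, hg2⟩ := hk2 k' (Nat.lt_succ_self k')
      have hβ' : 0 < 2 ^ k' * ρ := by positivity
      have hρβ' : ρ ≤ 2 ^ k' * ρ := by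
        have : (1 : ℝ) ≤ 2 ^ k' := one_le_pow₀ (by norm_num)
        nlinarith
      have h2 : (2 : ℝ) ^ (k' + 1) * ρ = 2 * (2 ^ k' * ρ) := by ring
      have hzc : f^[n] z ∈ ball c ρ := by
        rw [mem_ball, dist_eq_norm]
        exact hzA
      refine ⟨g, hg1, ⟨f^[n] z, hzc, hg2⟩, ?_⟩
      rintro _ ⟨x, hx, rfl⟩
      have h3 := hall c (4 * (2 ^ k' * ρ)) g (by
        refine ball_subset_ball' ?_
        rw [dist_eq_norm, norm_sub_rev]
        linarith) (ball_subset_ball (by linarith) hzc) hg1 hg2 x hx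
      exact hPHmem (k' + 1) j c' (g x) hkN hj hc' hu'.le (hg1.2 x hx).1 h3.1 h3.2
  -- the measure of the first set
  have hinf : (volume Ainf).toReal ≤ C * (ρ / R₂) ^ 2 * ar f U K δ n := by
    have hβR := hNlt (N - 1) (by omega)
    have hβ : 0 < 2 ^ (N - 1) * ρ := by positivity
    have hρβ : ρ ≤ 2 ^ (N - 1) * ρ := by
      have : (1 : ℝ) ≤ 2 ^ (N - 1) := one_le_pow₀ (by norm_num)
      nlinarith
    have h1 := meas_real (X := Ainf) (Y := E f U K δ n) hCM hM S.openU S.diff hρ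
      (r := 4 * (2 ^ (N - 1) * ρ)) (by linarith) (hfin n) (c := c) (n := n) (by
        rintro z ⟨hz, g, hg1, hg2⟩
        refine ⟨g, hg1, ⟨f^[n] z, ?_, hg2⟩, ?_⟩
        · rw [mem_ball, dist_eq_norm]
          exact hz.2
        · rintro _ ⟨x, hx, rfl⟩
          refine ⟨(hg1.2 x hx).1, ?_⟩
          rw [(hg1.2 x hx).2]
          refine mem_cthickening_of_dist_le _ c δ K hcK ?_
          have := mem_ball.1 hx
          linarith)
    refine h1.trans ?_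
    refine mul_le_mul_of_nonneg_right ?_ ENNReal.toReal_nonneg
    have h2 : (2 : ℝ) ^ N * ρ = 2 * (2 ^ (N - 1) * ρ) := by
      obtain ⟨m, rfl⟩ : ∃ m, N = m + 1 := ⟨N - 1, by omega⟩
      rw [Nat.add_sub_cancel, pow_succ]
      ring
    set β : ℝ := 2 ^ (N - 1) * ρ with hβd
    have h3 : R₂ < 2 * β := by linarith
    have h40 : 2 * R₂ ≤ 4 * β := by linarith
    have h4 : CM / (4 * β) ^ 2 * (Real.pi * ρ ^ 2) ≤ CM / (2 * R₂) ^ 2 * (Real.pi * ρ ^ 2) :=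
      mul_le_mul_of_nonneg_right (div_le_div_of_nonneg_left hCM.le (by positivity)
        (pow_le_pow_left₀ (by positivity) h40 2)) (by positivity)
    have h5 : CM / (2 * R₂) ^ 2 * (Real.pi * ρ ^ 2) = CM * Real.pi / 4 * (ρ / R₂) ^ 2 := by
      field_simp
      ring
    rw [h5] at h4
    exact h4.trans (mul_le_mul_of_nonneg_right hCM' (by positivity))
  -- the measure of the other sets
  have hX : ∀ k j c', (volume (X k j c')).toReal ≤
      C * (1 / 4) ^ k * (volume (PH k j c')).toReal := by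
    intro k j c'
    rcases k with _ | k'
    · have h1 : (volume (X 0 j c')).toReal ≤ (volume (PH 0 j c')).toReal :=
        ENNReal.toReal_mono (hPHfin 0 j c') (measure_mono fun z hz => hz.2.1)
      rw [pow_zero, mul_one]
      have h2 : 0 ≤ (volume (PH 0 j c')).toReal := ENNReal.toReal_nonneg
      nlinarith
    · have hρβ : ρ ≤ 2 ^ k' * ρ := by
        have : (1 : ℝ) ≤ 2 ^ k' := one_le_pow₀ (by norm_num)
        nlinarith
      have h1 := meas_real (X := X (k' + 1) j c') (Y := PH (k' + 1) j c') hCM hM S.openU S.diff hρ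
        (r := 4 * (2 ^ k' * ρ)) (by linarith) (hPHfin (k' + 1) j c') (c := c) (n := n) (by
          rintro z ⟨-, -, h | ⟨k'', hk'', g, hg1, hg2, hg3⟩⟩
          · omega
          · have : k'' = k' := by omega
            subst this
            exact ⟨g, hg1, hg2, hg3⟩)
      refine h1.trans ?_
      refine mul_le_mul_of_nonneg_right ?_ ENNReal.toReal_nonneg
      have h4 : CM / (4 * (2 ^ k' * ρ)) ^ 2 * (Real.pi * ρ ^ 2) =
          CM * Real.pi / 4 * (1 / 4) ^ (k' + 1) := by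
        have e0 : (2 : ℝ) ^ k' * 2 ^ k' = 4 ^ k' := by rw [← mul_pow]; norm_num
        have e1 : ((1 : ℝ) / 4) ^ (k' + 1) = 1 / (4 * (2 ^ k') ^ 2) := by
          rw [one_div_pow, pow_succ, sq, e0, mul_comm]
        rw [e1]
        field_simp
      rw [h4]
      exact mul_le_mul_of_nonneg_right hCM' (by positivity)
  -- the sum
  have hsub : Ainf ∪ ⋃ k ∈ Finset.range N, ⋃ j ∈ Finset.Ico M n, ⋃ c' ∈ Cr, X k j c' ⊆ A := by
    refine union_subset (fun z hz => hz.1) ?_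
    refine iUnion₂_subset fun k _ => iUnion₂_subset fun j _ => iUnion₂_subset fun c' _ => ?_
    exact fun z hz => hz.1
  have hufin : volume (Ainf ∪ ⋃ k ∈ Finset.range N, ⋃ j ∈ Finset.Ico M n, ⋃ c' ∈ Cr, X k j c') ≠
      ⊤ := ((measure_mono hsub).trans_lt hAfin.lt_top).ne
  calc ph f U K δ n c ρ = volume.real A := rfl
    _ ≤ volume.real (Ainf ∪ ⋃ k ∈ Finset.range N, ⋃ j ∈ Finset.Ico M n, ⋃ c' ∈ Cr, X k j c') :=
        measureReal_mono hcov hufin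
    _ ≤ volume.real Ainf +
        volume.real (⋃ k ∈ Finset.range N, ⋃ j ∈ Finset.Ico M n, ⋃ c' ∈ Cr, X k j c') :=
        measureReal_union_le _ _
    _ ≤ volume.real Ainf + ∑ k ∈ Finset.range N,
        volume.real (⋃ j ∈ Finset.Ico M n, ⋃ c' ∈ Cr, X k j c') := by
        gcongr
        exact measureReal_biUnion_finset_le _ _
    _ ≤ volume.real Ainf + ∑ k ∈ Finset.range N, ∑ j ∈ Finset.Ico M n,
        volume.real (⋃ c' ∈ Cr, X k j c') := by
        gcongr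
        exact measureReal_biUnion_finset_le _ _
    _ ≤ volume.real Ainf + ∑ k ∈ Finset.range N, ∑ j ∈ Finset.Ico M n, ∑ c' ∈ Cr,
        volume.real (X k j c') := by
        gcongr
        exact measureReal_biUnion_finset_le _ _
    _ ≤ C * (ρ / R₂) ^ 2 * ar f U K δ n + ∑ k ∈ Finset.range N, ∑ j ∈ Finset.Ico M n,
        ∑ c' ∈ Cr, C * (1 / 4) ^ k * (volume (PH k j c')).toReal := by
        refine add_le_add hinf ?_
        exact Finset.sum_le_sum fun k _ => Finset.sum_le_sum fun j _ =>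
          Finset.sum_le_sum fun c' _ => hX k j c'
    _ = _ := by
        congr 1
        refine Finset.sum_congr rfl fun k _ => ?_
        rw [Finset.mul_sum]
        refine Finset.sum_congr rfl fun j _ => ?_
        rw [Finset.mul_sum]
        rfl

end Pool.Agent.H71.AD211
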